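import Pool.Agent.Lib_MP_d26ff6_al.Defs

/-!
# An induction over structures of elementary type (helper50, note RK1 (3.2)), in Lean (helper29)
-/

set_option autoImplicit false
set_option linter.unusedSimpArgs false
set_option linter.unnecessarySeqFocus false
set_option linter.unusedSectionVars false
set_option linter.unusedVariables false

namespace Pool.Agent.ETCR

open QS

/-- the hypotheses of (3.2) -/
structure Pt (S : QStruct) (H W : Subgroup S.G) : Prop where
  ne : ∃ a, a ∉ H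
  mul : ∀ a b, a ∉ H → b ∉ H → a * b ∈ H
  le : W ≤ H
  pa : ∀ t h, t ∉ H → h ∈ H → S.q t h = S.zero → h ∈ W
  pb : ∀ t w, t ∉ H → w ∈ W → ∃ v, v ∉ H ∧ S.q t v = S.zero ∧ S.q w v = S.zero

/-- the conclusion of (3.2) -/
def Co (S : QStruct) (H W : Subgroup S.G) : Prop := ∃ t, t ∉ H ∧ ∀ w ∈ W, S.q t w = S.zero

theorem q_one' (S : QStruct) (b : S.G) : S.q 1 b = S.zero := by
  rw [S.qs2, S.q_one]

theorem q_self (S : QStruct) (hneg : S.neg = 1) (b : S.G) : S.q b b = S.zero := by
  have := S.qs1 b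
  rwa [hneg, one_mul] at this

theorem Pt.triv {S : QStruct} {H W : Subgroup S.G} (h : Pt S H W) (hc : Nat.card S.G ≤ 2)
    (hc' : 0 < Nat.card S.G) : W = H := by
  obtain ⟨a, ha⟩ := h.ne
  have hfin : Finite S.G := Nat.finite_of_card_ne_zero (by omega)
  have := Fintype.ofFinite S.G
  classical
  have key : ∀ x ∈ H, x = 1 := by
    intro x hx
    by_contra hx1
    have ha1 : a ≠ 1 := fun e => ha (e ▸ H.one_mem)
    have hxa : x ≠ a := fun e => ha (e ▸ hx)
    have h3 : ({1, x, a} : Finset S.G).card ≤ Fintype.card S.G := Finset.card_le_univ _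
    rw [← Nat.card_eq_fintype_card, Finset.card_insert_of_notMem, Finset.card_insert_of_notMem,
      Finset.card_singleton] at h3
    · omega
    · rw [Finset.mem_singleton]; exact hxa
    · simp only [Finset.mem_insert, Finset.mem_singleton, not_or]
      exact ⟨fun e => hx1 e.symm, fun e => ha1 e.symm⟩
  apply le_antisymm h.le
  intro x hx
  rw [key x hx]
  exact W.one_mem

theorem Pt.loc {S : QStruct} (hneg : S.neg = 1) {H W : Subgroup S.G} (h : Pt S H W)
    (hf : Finite S.G) (h8 : 8 ≤ Nat.card S.G) (h1 : ∀ a, (∀ b, S.q a b = S.zero) → a = 1)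
    (h2 : Nat.card S.Q = 2) : W = H := by
  have two : ∀ β γ : S.Q, β ≠ S.zero → γ ≠ S.zero → β = γ := by
    obtain ⟨p, r, hpr, hu⟩ := Nat.card_eq_two_iff.1 h2
    have hall : ∀ x : S.Q, x = p ∨ x = r := by
      intro x
      have : x ∈ ({p, r} : Set S.Q) := by rw [hu]; trivial
      simpa using this
    intro β γ hb hg
    rcases hall β with rfl | rfl <;> rcases hall γ with rfl | rfl <;> rcases hall S.zero with h | h
    all_goals first | rfl | exact absurd h.symm hb | exact absurd h.symm hg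
  -- an element of `H` outside `W` satisfies `V_h = H`
  have key : ∀ x ∈ H, x ∉ W → ∀ t, S.q x t = S.zero ↔ t ∈ H := by
    intro x hx hxW
    have k1 : ∀ t, S.q x t = S.zero → t ∈ H := by
      intro t ht
      by_contra htH
      exact hxW (h.pa t x htH hx (by rw [S.qs2, ht]))
    intro t
    refine ⟨k1 t, fun ht => ?_⟩
    by_contra hne
    obtain ⟨a, ha⟩ := h.ne
    have k2 : S.q x a ≠ S.zero := fun e => ha (k1 a e)
    have k3 : S.q x t = S.q x a := two _ _ hne k2
    have k4 := k1 _ ((S.qs3 _ _ _).1 k3)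
    apply ha
    have := H.mul_mem (H.inv_mem ht) k4
    rwa [inv_mul_cancel_left] at this
  have uniq : ∀ x ∈ H, x ∉ W → ∀ y ∈ H, y ∉ W → x = y := by
    intro x hx hxW y hy hyW
    rw [eq_iff_mul S]
    apply h1
    intro b
    rw [S.qs2, ← S.qs3, S.qs2 b x, S.qs2 b y]
    by_cases hb : b ∈ H
    · rw [(key x hx hxW b).2 hb, (key y hy hyW b).2 hb]
    · exact two _ _ (fun e => hb ((key x hx hxW b).1 e)) (fun e => hb ((key y hy hyW b).1 e))
  apply le_antisymm h.le
  intro x hx
  by_contra hxW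
  have hW : ∀ y ∈ W, y = 1 := by
    intro y hy
    have h3 : x * y ∉ W := by
      intro e
      apply hxW
      have := W.mul_mem e (W.inv_mem hy)
      rwa [mul_inv_cancel_right] at this
    have h4 := uniq x hx hxW (x * y) (H.mul_mem hx (h.le hy)) h3
    exact (mul_eq_left.1 h4.symm)
  -- then `H = {1, x}` and `G` has four elements
  obtain ⟨a, ha⟩ := h.ne
  have hall : ∀ g : S.G, g = 1 ∨ g = x ∨ g = a ∨ g = x * a := by
    have hH : ∀ g ∈ H, g = 1 ∨ g = x := by
      intro g hg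
      by_cases hgW : g ∈ W
      · exact Or.inl (hW g hgW)
      · exact Or.inr (uniq g hg hgW x hx hxW)
    intro g
    by_cases hg : g ∈ H
    · rcases hH g hg with e | e
      · exact Or.inl e
      · exact Or.inr (Or.inl e)
    · have h5 := hH _ (h.mul g a hg ha)
      rcases h5 with e | e
      · right; right; left
        exact (eq_iff_mul S g a).2 e
      · right; right; right
        calc g = g * a * a := by rw [mul_assoc, S.exp_two, mul_one]
          _ = x * a := by rw [e]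
  have := Fintype.ofFinite S.G
  classical
  have h5 : Fintype.card S.G ≤ ({1, x, a, x * a} : Finset S.G).card := by
    apply Finset.card_le_card
    intro g _
    simp only [Finset.mem_insert, Finset.mem_singleton]
    exact hall g
  have h6 : ({1, x, a, x * a} : Finset S.G).card ≤ 4 := Finset.card_le_four
  rw [← Nat.card_eq_fintype_card] at h5
  omega

theorem Pt.ext {S : QStruct} (hneg : S.neg = 1) {H W : Subgroup (ext S).G}
    (h : Pt (ext S) H W) : Co (ext S) H W := by
  have hrig : ∀ (a : S.G) (v : S.G × Multiplicative (ZMod 2)),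
      (QS.ext S).q (a, Multiplicative.ofAdd 1) v = (QS.ext S).zero →
        v = 1 ∨ v = (a, Multiplicative.ofAdd 1) := by
    rintro a ⟨b, β⟩ hq
    have h2 : extMap S (a, Multiplicative.ofAdd 1) (b, β) = (S.zero, 1) := congrArg Subtype.val hq
    rcases two_cases β with rfl | rfl
    · rw [extMap_x_one, Prod.mk.injEq] at h2
      left
      rw [h2.2]
      rfl
    · rw [extMap_x_x, Prod.mk.injEq, hneg, one_mul] at h2
      right
      rw [(eq_iff_mul S b a).2 (by rw [mul_comm]; exact h2.2)]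
  obtain ⟨a, ha⟩ : ∃ a : S.G, ((a, Multiplicative.ofAdd 1) : S.G × Multiplicative (ZMod 2)) ∉ H := by
    by_contra hno
    push Not at hno
    obtain ⟨g, hg⟩ := h.ne
    apply hg
    obtain ⟨b, β⟩ := g
    rcases two_cases β with rfl | rfl
    · have e : ((b, Multiplicative.ofAdd 1) : S.G × Multiplicative (ZMod 2)) *
          (1, Multiplicative.ofAdd 1) = (b, 1) := by
        rw [Prod.mk_mul_mk, mul_one, x_mul_x]
      rw [← e]
      exact H.mul_mem (hno b) (hno 1)
    · exact hno b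
  refine ⟨(a, Multiplicative.ofAdd 1), ha, fun w hw => ?_⟩
  obtain ⟨v, hv, h1, h2⟩ := h.pb _ w ha hw
  rcases hrig a v h1 with e | e
  · exfalso
    apply hv
    rw [e]
    exact H.one_mem
  · rw [(QS.ext S).qs2, ← e]
    exact h2

theorem Pt.prodL {S T : QStruct} {H W : Subgroup (prod S T).G} (h : Pt (prod S T) H W)
    (hT : ∀ b : T.G, ((1, b) : S.G × T.G) ∈ H) (hne : W ≠ H)
    (ih : ∀ H W : Subgroup S.G, Pt S H W → W ≠ H → Co S H W) : Co (prod S T) H W := by
  have split : ∀ (a : S.G) (b : T.G), ((a, b) : S.G × T.G) = (a, 1) * (1, b) := by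
    intro a b
    rw [Prod.mk_mul_mk, mul_one, one_mul]
  have e2 : ∀ (a : S.G) (b : T.G), ((a, b) : S.G × T.G) * (1, b) = (a, 1) := by
    intro a b
    rw [Prod.mk_mul_mk, mul_one, T.exp_two]
  have hH : ∀ (a : S.G) (b : T.G), ((a, b) : S.G × T.G) ∈ H ↔ ((a, 1) : S.G × T.G) ∈ H := by
    intro a b
    constructor
    · intro h1
      rw [← e2 a b]
      exact H.mul_mem h1 (hT b)
    · intro h1
      rw [split]
      exact H.mul_mem h1 (hT b)
  obtain ⟨⟨a0, b0⟩, h0⟩ := h.ne
  have ha0 : ((a0, 1) : S.G × T.G) ∉ H := fun e => h0 ((hH a0 b0).2 e)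
  have hTW : ∀ b : T.G, ((1, b) : S.G × T.G) ∈ W := by
    intro b
    apply h.pa (a0, 1) (1, b) ha0 (hT b)
    show ((S.q a0 1, T.q 1 b) : S.Q × T.Q) = (S.zero, T.zero)
    rw [S.q_one, q_one']
  have hWW : ∀ (a : S.G) (b : T.G), ((a, b) : S.G × T.G) ∈ W ↔ ((a, 1) : S.G × T.G) ∈ W := by
    intro a b
    constructor
    · intro h1
      rw [← e2 a b]
      exact W.mul_mem h1 (hTW b)
    · intro h1
      rw [split]
      exact W.mul_mem h1 (hTW b)
  let ι : S.G →* S.G × T.G := MonoidHom.inl S.G T.G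
  have hmH : ∀ a, a ∈ (H.comap ι : Subgroup S.G) ↔ ((a, 1) : S.G × T.G) ∈ H := fun a => Iff.rfl
  have hmW : ∀ a, a ∈ (W.comap ι : Subgroup S.G) ↔ ((a, 1) : S.G × T.G) ∈ W := fun a => Iff.rfl
  obtain ⟨t, ht, htw⟩ := ih (H.comap ι) (W.comap ι) (by
    refine ⟨⟨a0, ha0⟩, ?_, ?_, ?_, ?_⟩
    · intro a b ha hb
      rw [hmH] at *
      have e : ((a, 1) : S.G × T.G) * (b, 1) = (a * b, 1) := by
        rw [Prod.mk_mul_mk, mul_one]
      rw [← e]
      exact h.mul _ _ ha hb
    · intro a ha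
      exact h.le ha
    · intro t x ht hx hq
      rw [hmH] at *
      rw [hmW]
      apply h.pa _ _ ht hx
      show ((S.q t x, T.q 1 1) : S.Q × T.Q) = (S.zero, T.zero)
      rw [hq, T.q_one]
    · intro t w ht hw
      rw [hmH] at ht
      rw [hmW] at hw
      obtain ⟨⟨v1, v2⟩, hv, h1, h2⟩ := h.pb _ _ ht hw
      refine ⟨v1, ?_, congrArg Prod.fst h1, congrArg Prod.fst h2⟩
      rw [hmH]
      exact fun e => hv ((hH v1 v2).2 e)) (by
    intro e
    apply hne
    apply Subgroup.ext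
    rintro ⟨a, b⟩
    exact (hWW a b).trans ((show a ∈ (W.comap ι : Subgroup S.G) ↔ a ∈ (H.comap ι : Subgroup S.G) by
      rw [e]).trans (hH a b).symm))
  refine ⟨(t, 1), ht, ?_⟩
  rintro ⟨w1, w2⟩ hw
  show ((S.q t w1, T.q 1 w2) : S.Q × T.Q) = (S.zero, T.zero)
  rw [q_one', htw w1 ((hWW w1 w2).1 hw)]

theorem Pt.iso {S T : QStruct} (φ : S.G ≃* T.G)
    (hφ : ∀ a b c d, S.q a b = S.q c d ↔ T.q (φ a) (φ b) = T.q (φ c) (φ d))
    {H W : Subgroup T.G} (h : Pt T H W) (hne : W ≠ H)
    (ih : Pt S (H.comap φ.toMonoidHom) (W.comap φ.toMonoidHom) →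
      W.comap φ.toMonoidHom ≠ H.comap φ.toMonoidHom →
      Co S (H.comap φ.toMonoidHom) (W.comap φ.toMonoidHom)) : Co T H W := by
  have hz : ∀ a b, S.q a b = S.zero ↔ T.q (φ a) (φ b) = T.zero := by
    intro a b
    have h1 := hφ a b 1 1
    rwa [S.q_one, map_one, T.q_one] at h1
  have hmH : ∀ a, a ∈ (H.comap φ.toMonoidHom : Subgroup S.G) ↔ φ a ∈ H := fun a => Iff.rfl
  have hmW : ∀ a, a ∈ (W.comap φ.toMonoidHom : Subgroup S.G) ↔ φ a ∈ W := fun a => Iff.rfl
  obtain ⟨t, ht, htw⟩ := ih (by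
    refine ⟨?_, ?_, ?_, ?_, ?_⟩
    · obtain ⟨a, ha⟩ := h.ne
      refine ⟨φ.symm a, ?_⟩
      rw [hmH, φ.apply_symm_apply]
      exact ha
    · intro a b ha hb
      rw [hmH] at *
      rw [map_mul]
      exact h.mul _ _ ha hb
    · intro a ha
      exact h.le ha
    · intro t x ht hx hq
      rw [hmH] at *
      rw [hmW]
      exact h.pa _ _ ht hx ((hz t x).1 hq)
    · intro t w ht hw
      obtain ⟨v, hv, h1, h2⟩ := h.pb _ _ ht hw
      refine ⟨φ.symm v, ?_, ?_, ?_⟩
      · rw [hmH, φ.apply_symm_apply]; exact hv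
      · rw [hz, φ.apply_symm_apply]; exact h1
      · rw [hz, φ.apply_symm_apply]; exact h2) (by
    intro e
    apply hne
    ext a
    rw [← φ.apply_symm_apply a, ← hmW, ← hmH, e])
  refine ⟨φ t, ht, fun w hw => ?_⟩
  have h1 := htw (φ.symm w) (by rw [hmW, φ.apply_symm_apply]; exact hw)
  rw [hz, φ.apply_symm_apply] at h1
  exact h1

theorem Pt.prod' {S T : QStruct} (hS : S.neg = 1) (hT : T.neg = 1)
    {H W : Subgroup (prod S T).G} (h : Pt (prod S T) H W)
    (ha : ∃ a : S.G, ((a, 1) : S.G × T.G) ∉ H) (hb : ∃ b : T.G, ((1, b) : S.G × T.G) ∉ H) :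
    W = H := by
  obtain ⟨a, ha⟩ := ha
  obtain ⟨b, hb⟩ := hb
  have w1 : ∀ x : S.G, ((x, 1) : S.G × T.G) ∈ H → ((x, 1) : S.G × T.G) ∈ W := by
    intro x hx
    apply h.pa (1, b) _ hb hx
    show ((S.q 1 x, T.q b 1) : S.Q × T.Q) = (S.zero, T.zero)
    rw [q_one', T.q_one]
  have w2 : ∀ x : T.G, ((1, x) : S.G × T.G) ∈ H → ((1, x) : S.G × T.G) ∈ W := by
    intro x hx
    apply h.pa (a, 1) _ ha hx
    show ((S.q a 1, T.q 1 x) : S.Q × T.Q) = (S.zero, T.zero)
    rw [q_one', S.q_one]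
  apply le_antisymm h.le
  rintro ⟨x, y⟩ hxy
  by_cases hx : ((x, 1) : S.G × T.G) ∈ H
  · have hy : ((1, y) : S.G × T.G) ∈ H := by
      have e : ((x, y) : S.G × T.G) * (x, 1) = (1, y) := by
        rw [Prod.mk_mul_mk, mul_one, S.exp_two]
      rw [← e]
      exact H.mul_mem hxy hx
    have e : ((x, 1) : S.G × T.G) * (1, y) = (x, y) := by
      rw [Prod.mk_mul_mk, mul_one, one_mul]
    rw [← e]
    exact W.mul_mem (w1 x hx) (w2 y hy)
  · apply h.pa (x, 1) _ hx hxy
    show ((S.q x x, T.q 1 y) : S.Q × T.Q) = (S.zero, T.zero)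
    rw [q_one', q_self S hS]

theorem swap_q (S T : QStruct) (a b c d : S.G × T.G) :
    (prod S T).q a b = (prod S T).q c d ↔
      (prod T S).q a.swap b.swap = (prod T S).q c.swap d.swap := by
  show ((S.q a.1 b.1, T.q a.2 b.2) : S.Q × T.Q) = (S.q c.1 d.1, T.q c.2 d.2) ↔
    ((T.q a.2 b.2, S.q a.1 b.1) : T.Q × S.Q) = (T.q c.2 d.2, S.q c.1 d.1)
  rw [Prod.mk.injEq, Prod.mk.injEq, and_comm]

/-- (3.2) for structures of elementary type with `-1 = 1` -/
theorem etf (S : QStruct) (hE : ElemType S) : S.neg = 1 →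
    ∀ H W : Subgroup S.G, Pt S H W → W ≠ H → Co S H W := by
  induction hE with
  | L0 S h => exact fun _ H W hp hne => absurd (hp.triv (by omega) (by omega)) hne
  | L10 S h _ _ => exact fun _ H W hp hne => absurd (hp.triv (by omega) (by omega)) hne
  | L11 S h h1 _ => exact fun hn => absurd hn h1
  | L1 S h h1 _ => exact fun hn => absurd hn h1
  | loc S hf h h1 h2 => exact fun hn H W hp hne => absurd (hp.loc hn hf h h1 h2) hne
  | ext S _ _ =>
    intro hn H W hp _
    exact hp.ext (congrArg Prod.fst hn)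
  | iso S T h1 _ ih =>
    obtain ⟨φ, hφn, hφ⟩ := h1
    intro hn H W hp hne
    exact hp.iso φ hφ hne (ih (by
      apply φ.injective
      rw [hφn, hn, map_one]) _ _)
  | prod S T _ _ ihS ihT =>
    intro hn H W hp hne
    have hS : S.neg = 1 := congrArg Prod.fst hn
    have hT : T.neg = 1 := congrArg Prod.snd hn
    by_cases hb : ∀ b : T.G, ((1, b) : S.G × T.G) ∈ H
    · exact hp.prodL hb hne (ihS hS)
    by_cases ha : ∀ a : S.G, ((a, 1) : S.G × T.G) ∈ H
    · apply hp.iso (S := QS.prod T S) (T := QS.prod S T) MulEquiv.prodComm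
        (fun a b c d => swap_q T S a b c d) hne
      intro hp' hne'
      exact hp'.prodL (fun b => ha b) hne' (ihT hT)
    · push Not at ha hb
      exact absurd (hp.prod' hS hT ha hb) hne

end Pool.Agent.ETCR
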