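import Pool.Agent.ETCR.Part4
import Pool.Agent.ETCR.Etf
import Pool.Agent.ETCP.QStr

/-!
# Structures with a rank one element (helper50, note RK1), in Lean (helper29)
-/

set_option autoImplicit false
set_option linter.unusedSimpArgs false
set_option linter.unnecessarySeqFocus false
set_option linter.unusedSectionVars false
set_option linter.unusedVariables false

namespace Pool.Agent.ETCR

open QS
open Pool.Agent.Helper58.PLine (QData)
open Pool.Agent.ETCP
open ETC (D)

theorem decomp_of_sub (S : QStruct) [Finite S.G] (hneg : S.neg = 1)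
    {A B : Submodule (ZMod 2) (Additive S.G)} (hAB : IsCompl A B)
    (hc1 : ∀ a ∈ A, ∀ b ∈ B, C (ETC.toData S) a b)
    (hc2 : ∀ a ∈ A, ∀ b ∈ B, ∀ a' ∈ A, ∀ b' ∈ B, C (ETC.toData S) (a + b) (a' + b') →
      C (ETC.toData S) a a' ∧ C (ETC.toData S) b b')
    (hA : ∃ x ∈ A, x ≠ 0) (hB : ∃ x ∈ B, x ≠ 0) : Decomp S := by
  obtain ⟨HA, hHA⟩ := zspan S A
  obtain ⟨HB, hHB⟩ := zspan S B
  apply decomp_of_subgroups S hneg HA HB
  · constructor
    · rw [Subgroup.disjoint_def]
      intro x h1 h2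
      have := (Submodule.disjoint_def.1 hAB.disjoint) _ ((hHA x).1 h1) ((hHB x).1 h2)
      exact this
    · rw [codisjoint_iff, eq_top_iff]
      intro x _
      have : Additive.ofMul x ∈ A ⊔ B := by rw [hAB.sup_eq_top]; trivial
      obtain ⟨a, ha, b, hb, hab⟩ := Submodule.mem_sup.1 this
      rw [Subgroup.mem_sup]
      exact ⟨Additive.toMul a, (hHA _).2 ha, Additive.toMul b, (hHB _).2 hb, hab⟩
  · obtain ⟨x, hx, hx0⟩ := hA
    exact ⟨Additive.toMul x, (hHA _).2 hx, hx0⟩
  · obtain ⟨x, hx, hx0⟩ := hB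
    exact ⟨Additive.toMul x, (hHB _).2 hx, hx0⟩
  · intro a ha b hb a' ha' b' hb'
    have ha2 := (hHA a).1 ha
    have hb2 := (hHB b).1 hb
    have ha2' := (hHA a').1 ha'
    have hb2' := (hHB b').1 hb'
    constructor
    · intro h
      exact hc2 _ ha2 _ hb2 _ ha2' _ hb2' h
    · rintro ⟨h1, h2⟩
      have k1 : C (ETC.toData S) (Additive.ofMul a) (Additive.ofMul a') := h1
      have k2 : C (ETC.toData S) (Additive.ofMul b) (Additive.ofMul b') := h2
      exact (k1.add (hc1 _ ha2 _ hb2')).add' ((hc1 _ ha2' _ hb2).symm.add k2)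

/-- the noncommutative case -/
theorem case1 (S : QStruct) [Finite S.G] (hneg : S.neg = 1)
    (hnd : ∀ a, (∀ b, S.q a b = S.zero) → a = 1) {c : S.Q} (hc : c ≠ S.zero)
    {t t' : Additive S.G} (ht : XC (ETC.toData S) c t) (ht' : XC (ETC.toData S) c t')
    (hq : ¬ C (ETC.toData S) t t') : Decomp S ∨ Nat.card S.Q = 2 := by
  have he : (ETC.toData S).e = 0 := by
    show Additive.ofMul S.neg = 0
    rw [hneg]; rfl
  have hfin : Finite (Additive S.G) := (inferInstance : Finite S.G)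
  have hq' : (ETC.toData S).q t t' = c := (ht t').resolve_left hq
  obtain ⟨f, X⟩ := XC.one (S := ETC.toData S) he hc ht hq'
  have hf : f t' = 1 := X.f_iff'.1 hq'
  have ht0 : t ≠ 0 := by
    rintro rfl
    exact hq (C.zero' t')
  obtain ⟨h1, h2, h3⟩ := X.noncomm (fun x hx => hnd (Additive.toMul x)
    (fun b => hx (Additive.ofMul b))) ht' hf
  by_cases hW : ∀ w ∈ X.W0, w = 0
  · right
    rw [Nat.card_eq_two_iff]
    refine ⟨S.zero, c, hc.symm, ?_⟩
    rw [Set.eq_univ_iff_forall]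
    intro β
    obtain ⟨a, b, hab⟩ := S.surj β
    have ha : Additive.ofMul a ∈ XCs (ETC.toData S) c ⊔ X.W0 := by
      rw [h1.sup_eq_top]; trivial
    obtain ⟨a1, ha1, a2, ha2, e⟩ := Submodule.mem_sup.1 ha
    rw [hW a2 ha2, add_zero] at e
    have h4 : XC (ETC.toData S) c (Additive.ofMul a) := e ▸ ha1
    rw [Set.mem_insert_iff, Set.mem_singleton_iff, ← hab]
    exact h4 (Additive.ofMul b)
  · left
    push Not at hW
    exact decomp_of_sub S hneg h1 h2 h3 ⟨t, ht, ht0⟩ hW

theorem ext_of_rigid (S : QStruct) [Finite S.G] (hneg : S.neg = 1) {r : S.G} (hr : r ≠ 1)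
    (hx : ∀ x, S.q r x = S.zero → x = 1 ∨ x = r) : ∃ T : QStruct, Iso S (ext T) := by
  have hr' : ETCC.Rig S r := by
    intro z hz
    rw [hneg, one_mul]
    exact hx z hz
  refine ETCC.ext_of_bir (z := r) ⟨hr, by rw [hneg]; exact hr, hr', ?_⟩
  rw [hneg, one_mul]
  exact hr'

/-- the commutative case -/
theorem case2 (S : QStruct) [Finite S.G] (hneg : S.neg = 1)
    (hnd : ∀ a, (∀ b, S.q a b = S.zero) → a = 1)
    (hT : ∀ T : QStruct, Finite T.G → T.neg = 1 → Nat.card T.G < Nat.card S.G → ElemType T)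
    {c : S.Q} {s : Additive S.G} {f : Additive S.G →ₗ[ZMod 2] ZMod 2}
    (X : One (ETC.toData S) s c f)
    (hcomm : ∀ t t', XC (ETC.toData S) c t → XC (ETC.toData S) c t' → C (ETC.toData S) t t') :
    (∃ T : QStruct, Iso S (ext T)) ∨ Decomp S := by
  have hfin : Finite (Additive S.G) := (inferInstance : Finite S.G)
  have := Fintype.ofFinite (Additive S.G)
  have hW : ∀ u, f u = 0 → Wp (ETC.toData S) f u → u ∈ X.W0 :=
    fun u hu hw => (X.mem_W0' hcomm).2 ⟨hu, hw⟩
  obtain ⟨g, hgs, hg⟩ := ETC.exists_dual_sep X.s_notMem_W0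
  obtain ⟨U, hU⟩ := zspan S (LinearMap.ker g)
  obtain ⟨HF, hHF⟩ := zspan S (LinearMap.ker f)
  obtain ⟨HW, hHW⟩ := zspan S X.W0
  have h4 : ∀ a ∈ U, ∀ b ∈ U, ∀ c ∈ U, ∀ d ∈ U, S.q a b = S.q c d →
      ∃ x ∈ U, S.q a b = S.q a x ∧ S.q c d = S.q c x := by
    intro a ha b hb c' hc' d hd h
    obtain ⟨x, hx, h1, h2⟩ := X.linkU hW hg hgs (Additive.ofMul a) ((hU a).1 ha)
      (Additive.ofMul b) ((hU b).1 hb) (Additive.ofMul c') ((hU c').1 hc')
      (Additive.ofMul d) ((hU d).1 hd) h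
    exact ⟨Additive.toMul x, (hU _).2 hx, h1, h2⟩
  let T := ESL.PRODRECX.sub S hneg U h4
  have hz := ESL.PRODRECX.sub_zero_iff S hneg U h4
  have hUt : U ≠ ⊤ := by
    intro e
    have : Additive.toMul s ∈ U := by rw [e]; trivial
    have h5 : g s = 0 := (hU _).1 this
    rw [hgs] at h5
    exact one_ne_zero h5
  have hTf : Finite T.G := (inferInstance : Finite U)
  have hTc : Nat.card T.G < Nat.card S.G := by
    have h5 : Nat.card U ≤ Nat.card S.G := Subgroup.card_le_card_group U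
    have h6 : Nat.card U ≠ Nat.card S.G := by
      intro e
      exact hUt (Subgroup.eq_top_of_card_eq U e)
    exact lt_of_le_of_ne h5 h6
  have hTE : ElemType T := hT T hTf rfl hTc
  -- the subgroups of `T`
  have hmF : ∀ a : U, a ∈ HF.comap U.subtype ↔ f (Additive.ofMul (a : S.G)) = 0 :=
    fun a => hHF a
  have hmW : ∀ a : U, a ∈ HW.comap U.subtype ↔ Additive.ofMul (a : S.G) ∈ X.W0 :=
    fun a => hHW a
  have hgU : ∀ a : U, g (Additive.ofMul (a : S.G)) = 0 := fun a => (hU a).1 a.2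
  have f1 : ∀ x, ¬ f x = 0 → f x = 1 := fun x h => (ETC.zm (f x)).resolve_left h
  have hPt : Pt T (HF.comap U.subtype) (HW.comap U.subtype) := by
    refine ⟨?_, ?_, ?_, ?_, ?_⟩
    · obtain ⟨v, hv⟩ := X.hf
      rcases ETC.zm (g v) with hgv | hgv
      · refine ⟨⟨Additive.toMul v, (hU _).2 hgv⟩, fun e => ?_⟩
        have h5 : f v = 0 := (hmF _).1 e
        rw [hv] at h5
        exact one_ne_zero h5
      · refine ⟨⟨Additive.toMul (v + s), (hU _).2 (by
          show g (v + s) = 0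
          rw [map_add, hgv, hgs]; decide)⟩, fun e => ?_⟩
        have h5 : f (v + s) = 0 := (hmF _).1 e
        rw [map_add, hv, X.fs] at h5
        exact one_ne_zero h5
    · intro a b ha hb
      have ha' := f1 _ (fun e => ha ((hmF a).2 e))
      have hb' := f1 _ (fun e => hb ((hmF b).2 e))
      apply (hmF (a * b)).2
      show f (Additive.ofMul ((show U from a) : S.G) + Additive.ofMul ((show U from b) : S.G)) = 0
      rw [map_add, ha', hb']; decide
    · intro a ha
      exact (hmF a).2 (X.W0_f ((hmW a).1 ha))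
    · intro t h ht hh hq
      have ht' := f1 _ (fun e => ht ((hmF t).2 e))
      apply (hmW h).2
      apply hW _ ((hmF h).1 hh)
      refine ⟨_, ht', C.symm ?_⟩
      exact (hz t h).1 hq
    · intro t w ht hw
      have ht' := f1 _ (fun e => ht ((hmF t).2 e))
      obtain ⟨v, hgv, hv, h1, h2⟩ := X.partner hW hg ht' (hgU t) ((hmW w).1 hw)
      refine ⟨⟨Additive.toMul v, (hU _).2 hgv⟩, fun e => ?_, ?_, ?_⟩
      · have h5 : f v = 0 := (hmF _).1 e
        rw [hv] at h5
        exact one_ne_zero h5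
      · exact (hz t ⟨Additive.toMul v, (hU _).2 hgv⟩).2 h1
      · exact (hz w ⟨Additive.toMul v, (hU _).2 hgv⟩).2 h2
  have hne : HW.comap U.subtype ≠ HF.comap U.subtype := by
    intro e
    have key : ∀ x, g x = 0 → ¬ X.N0 x := by
      intro x hx h0
      have h5 : (⟨Additive.toMul x, (hU _).2 hx⟩ : U) ∈ HF.comap U.subtype :=
        (hmF _).2 (X.N_f h0.1)
      rw [← e, hmW] at h5
      exact (not_Z_iff.2 h5.2) h0.2
    obtain ⟨x, hx⟩ := X.exists_N0 hcomm
    rcases ETC.zm (g x) with h | h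
    · exact key x h hx
    · exact key (x + s) (by rw [map_add, h, hgs]; decide) (X.N0_add_s.2 hx)
  obtain ⟨t, ht, htw⟩ : ∃ t : U, t ∉ HF.comap U.subtype ∧ ∀ w ∈ HW.comap U.subtype,
      T.q t w = T.zero := etf T hTE rfl _ _ hPt hne
  have htf : f (Additive.ofMul (t : S.G)) = 1 := f1 _ (fun e => ht ((hmF t).2 e))
  have Y : Two (ETC.toData S) s c f (Additive.ofMul (t : S.G)) := by
    refine ⟨X, fun u hu hw => X.N_of_Wp hcomm hu hw, htf, ?_⟩
    intro w hw
    have h5 : (⟨Additive.toMul w, (hU _).2 (hg w hw)⟩ : U) ∈ HW.comap U.subtype :=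
      (hmW _).2 hw
    exact (hz t ⟨Additive.toMul w, (hU _).2 (hg w hw)⟩).1 (htw _ h5)
  by_cases h0 : ∀ w ∈ X.W0, w = 0
  · left
    have ht1 : (t : S.G) ≠ 1 := by
      intro e
      rw [e] at htf
      have : f (Additive.ofMul (1 : S.G)) = 0 := map_zero f
      rw [this] at htf
      exact zero_ne_one htf
    apply ext_of_rigid S hneg ht1
    intro x hx
    exact Y.rigid h0 (Additive.ofMul x) hx
  · right
    push Not at h0
    obtain ⟨h1, h2, h3⟩ := Y.decomp (fun x hx => hnd (Additive.toMul x)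
      (fun b => hx (Additive.ofMul b)))
    refine decomp_of_sub S hneg h1 h2 h3 ⟨s, Y.s_mem, ?_⟩ h0
    intro e
    have h5 : (0 : Additive S.G) ∈ X.W0 := zero_mem _
    exact X.s_notMem_W0 (e.symm ▸ h5 : s ∈ X.W0)

/-- a rank one element -/
theorem rank_one (S : QStruct) [Finite S.G] (hneg : S.neg = 1)
    (hT : ∀ T : QStruct, Finite T.G → T.neg = 1 → Nat.card T.G < Nat.card S.G → ElemType T)
    {x : S.G} {c : S.Q} (hc : c ≠ S.zero) (hx : ∀ y, S.q x y = S.zero ∨ S.q x y = c)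
    (hy : ∃ y, S.q x y = c) :
    (∃ T : QStruct, Iso S (ext T)) ∨ Decomp S ∨
      ((∀ a, (∀ b, S.q a b = S.zero) → a = 1) ∧ Nat.card S.Q = 2) := by
  obtain ⟨y, hy⟩ := hy
  have hx1 : x ≠ 1 := by
    rintro rfl
    apply hc
    rw [← hy, S.qs2, S.q_one]
  by_cases hnd : ∀ a, (∀ b, S.q a b = S.zero) → a = 1
  swap
  · push Not at hnd
    obtain ⟨r, hr0, hr⟩ := hnd
    right; left
    refine decomp_of_degenerate S hneg hr hr0 hx1 ?_
    rintro rfl
    exact hc (hy.symm.trans (hr0 y))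
  have he : (ETC.toData S).e = 0 := by
    show Additive.ofMul S.neg = 0
    rw [hneg]; rfl
  have hX : XC (ETC.toData S) c (Additive.ofMul x) := fun v => hx (Additive.toMul v)
  by_cases hcomm : ∀ t t', XC (ETC.toData S) c t → XC (ETC.toData S) c t' →
      C (ETC.toData S) t t'
  · obtain ⟨f, X⟩ := XC.one (S := ETC.toData S) he hc hX (v := Additive.ofMul y) hy
    rcases case2 S hneg hnd hT X hcomm with h | h
    · exact Or.inl h
    · exact Or.inr (Or.inl h)
  · push Not at hcomm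
    obtain ⟨t, t', ht, ht', hq⟩ := hcomm
    rcases case1 S hneg hnd hc ht ht' hq with h | h
    · exact Or.inr (Or.inl h)
    · exact Or.inr (Or.inr ⟨hnd, h⟩)

end Pool.Agent.ETCR
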