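import Pool.Agent.ETCR.Cls
import Pool.Agent.ETC.Split

/-!
# Counting functionals (helper29)
-/

set_option autoImplicit false
set_option linter.unusedSimpArgs false
set_option linter.unnecessarySeqFocus false
set_option linter.unusedSectionVars false
set_option linter.unusedVariables false

namespace Pool.Agent.ETCR

open Pool.Agent.Helper58.PLine (QData)
open Pool.Agent.ETCP
open ETC (D)

variable {V : Type} [AddCommGroup V] [Module (ZMod 2) V]

open Classical in
/-- functionals vanishing on `U`, with value 1 at `s` -/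
noncomputable def F1 [Fintype V] (U : Submodule (ZMod 2) V) (s : V) : Finset (D V) :=
  Finset.univ.filter (fun ψ => ψ s = 1 ∧ ∀ y ∈ U, ψ y = 0)

theorem mem_F1 [Fintype V] {U : Submodule (ZMod 2) V} {s : V} {ψ : D V} :
    ψ ∈ F1 U s ↔ ψ s = 1 ∧ ∀ y ∈ U, ψ y = 0 := by
  classical
  unfold F1
  rw [Finset.mem_filter]
  exact ⟨fun h => h.2, fun h => ⟨Finset.mem_univ _, h⟩⟩

theorem card_ann [Fintype V] (U : Submodule (ZMod 2) V) :
    Nat.card {ψ : D V // ∀ y ∈ U, ψ y = 0} * Nat.card U = Fintype.card V := by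
  have h : Nat.card {ψ : D V // ∀ y ∈ U, ψ y = 0} = Nat.card (V ⧸ U) := by
    have e : {ψ : D V // ∀ y ∈ U, ψ y = 0} ≃ D (V ⧸ U) :=
      { toFun := fun ψ => U.liftQ ψ.1 (fun y hy => ψ.2 y hy)
        invFun := fun χ => ⟨χ ∘ₗ U.mkQ, fun y hy => by
          show χ (Submodule.Quotient.mk y) = 0
          rw [(Submodule.Quotient.mk_eq_zero U).2 hy, map_zero]⟩
        left_inv := fun ψ => by
          apply Subtype.ext
          ext v
          rfl
        right_inv := fun χ => by
          ext v
          rfl }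
    rw [Nat.card_congr e]
    have := Fintype.ofFinite (V ⧸ U)
    rw [Nat.card_eq_fintype_card, Nat.card_eq_fintype_card]
    exact ETC.card_D
  rw [h]
  have := Submodule.card_eq_card_quotient_mul_card U
  rw [← Nat.card_eq_fintype_card, this, mul_comm]

theorem card_F1 [Fintype V] {U : Submodule (ZMod 2) V} {s : V} (hs : s ∉ U) :
    (F1 U s).card * (2 * Nat.card U) = Fintype.card V := by
  classical
  obtain ⟨ψ0, h0, h0U⟩ := ETC.exists_dual_sep hs
  have h1 : Nat.card {ψ : D V // ∀ y ∈ U, ψ y = 0} = 2 * (F1 U s).card := by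
    have e : {ψ : D V // ∀ y ∈ U, ψ y = 0} ≃ {ψ : D V // ψ ∈ F1 U s} ⊕ {ψ : D V // ψ ∈ F1 U s} :=
      { toFun := fun ψ => if h : ψ.1 s = 1 then Sum.inl ⟨ψ.1, mem_F1.2 ⟨h, ψ.2⟩⟩
          else Sum.inr ⟨ψ.1 + ψ0, mem_F1.2 ⟨by
            rw [LinearMap.add_apply, (ETC.zm (ψ.1 s)).resolve_right h, h0, zero_add], fun y hy => by
            rw [LinearMap.add_apply, ψ.2 y hy, h0U y hy, add_zero]⟩⟩
        invFun := fun x => x.elim (fun ψ => ⟨ψ.1, (mem_F1.1 ψ.2).2⟩)
          (fun ψ => ⟨ψ.1 + ψ0, fun y hy => by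
            rw [LinearMap.add_apply, (mem_F1.1 ψ.2).2 y hy, h0U y hy, add_zero]⟩)
        left_inv := fun ψ => by
          by_cases h : ψ.1 s = 1
          · simp only [h, dif_pos, Sum.elim_inl]
          · simp only [h, dif_neg, not_false_eq_true, Sum.elim_inr]
            apply Subtype.ext
            show ψ.1 + ψ0 + ψ0 = ψ.1
            rw [add_assoc, ZModModule.add_self, add_zero]
        right_inv := fun x => by
          rcases x with ψ | ψ
          · simp only [Sum.elim_inl, (mem_F1.1 ψ.2).1, dif_pos]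
          · have hne : ¬ ((ψ.1 + ψ0) s = 1) := by
              rw [LinearMap.add_apply, (mem_F1.1 ψ.2).1, h0]
              decide
            simp only [Sum.elim_inr, hne, dif_neg, not_false_eq_true]
            congr 1
            apply Subtype.ext
            show ψ.1 + ψ0 + ψ0 = ψ.1
            rw [add_assoc, ZModModule.add_self, add_zero] }
    rw [Nat.card_congr e, Nat.card_sum, Nat.card_eq_fintype_card, Fintype.card_coe]
    ring
  have h2 := card_ann U
  rw [h1] at h2
  rw [← h2]
  ring

/-- separation with a prescribed value at `s` -/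
theorem sep2 {U : Submodule (ZMod 2) V} {s y : V} (hs : s ∉ U) (hy : y ∉ U) :
    ∃ ψ : D V, ψ s = 1 ∧ ψ y = 1 ∧ ∀ u ∈ U, ψ u = 0 := by
  obtain ⟨ψ1, h1, k1⟩ := ETC.exists_dual_sep hs
  obtain ⟨ψ2, h2, k2⟩ := ETC.exists_dual_sep hy
  rcases ETC.zm (ψ1 y) with a | a
  · rcases ETC.zm (ψ2 s) with b | b
    · refine ⟨ψ1 + ψ2, ?_, ?_, fun u hu => ?_⟩
      · rw [LinearMap.add_apply, h1, b, add_zero]
      · rw [LinearMap.add_apply, a, h2, zero_add]
      · rw [LinearMap.add_apply, k1 u hu, k2 u hu, add_zero]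
    · exact ⟨ψ2, b, h2, k2⟩
  · exact ⟨ψ1, h1, a, k1⟩

/-- a subspace on which a functional is not zero is twice its intersection with the kernel -/
theorem card_inf_ker [Finite V] (U : Submodule (ZMod 2) V) (f : D V) {v : V} (hv : v ∈ U)
    (hf : f v = 1) : Nat.card U = 2 * Nat.card (U ⊓ LinearMap.ker f : Submodule (ZMod 2) V) := by
  classical
  have e : U ≃ (U ⊓ LinearMap.ker f : Submodule (ZMod 2) V) ⊕
      (U ⊓ LinearMap.ker f : Submodule (ZMod 2) V) :=
    { toFun := fun x => if h : f x.1 = 0 then Sum.inl ⟨x.1, x.2, h⟩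
        else Sum.inr ⟨x.1 + v, U.add_mem x.2 hv, by
          show f (x.1 + v) = 0
          rw [map_add, (ETC.zm (f x.1)).resolve_left h, hf]; decide⟩
      invFun := fun x => x.elim (fun y => ⟨y.1, y.2.1⟩) (fun y => ⟨y.1 + v, U.add_mem y.2.1 hv⟩)
      left_inv := fun x => by
        by_cases h : f x.1 = 0
        · simp only [h, dif_pos, Sum.elim_inl]
        · simp only [h, dif_neg, not_false_eq_true, Sum.elim_inr]
          apply Subtype.ext
          show x.1 + v + v = x.1
          rw [add_assoc, ZModModule.add_self, add_zero]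
      right_inv := fun x => by
        rcases x with y | y
        · have : f y.1 = 0 := y.2.2
          simp only [Sum.elim_inl, this, dif_pos]
        · have hy : f y.1 = 0 := y.2.2
          have hne : ¬ (f (y.1 + v) = 0) := by
            rw [map_add, hy, hf]
            decide
          simp only [Sum.elim_inr, hne, dif_neg, not_false_eq_true]
          congr 1
          apply Subtype.ext
          show y.1 + v + v = y.1
          rw [add_assoc, ZModModule.add_self, add_zero] }
  rw [Nat.card_congr e, Nat.card_sum]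
  ring

end Pool.Agent.ETCR
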