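import Pool.Agent.ETCR.Sat

/-!
# The two cases (helper50, note RK1 (2)), in Lean (helper29)
-/

set_option autoImplicit false
set_option linter.unusedSimpArgs false
set_option linter.unnecessarySeqFocus false
set_option linter.unusedSectionVars false
set_option linter.unusedVariables false

namespace Pool.Agent.ETCR

open Pool.Agent.Helper58.PLine (QData)
open Pool.Agent.ETCP
open ETC (D)

variable {V Q : Type} [AddCommGroup V] [Module (ZMod 2) V] {S : QData V Q}

namespace One

variable {s : V} {c : Q} {f : V →ₗ[ZMod 2] ZMod 2} (X : One S s c f)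
include X

theorem SN_f {x : V} (h : x ∈ SN S c) : f x = 0 := by
  unfold SN at h
  induction h using Submodule.span_induction with
  | mem x h => exact X.N_f h
  | zero => exact map_zero f
  | add a b _ _ ha hb => rw [map_add, ha, hb, add_zero]
  | smul r a _ ha => rw [map_smul, ha, smul_zero]

theorem W0_SN : X.W0 ≤ SN S c := fun x h => Submodule.subset_span (show N S c x from h.1)

theorem XCs_s : XC S c s := by
  intro v
  rcases ETC.zm (f v) with h | h
  · exact Or.inl (X.h0 v h)
  · exact Or.inr (X.h1 v h)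

section
variable [Fintype V]

theorem E_N0_le {v z : V} (hv : f v = 1) (hz : X.N0 z) : X.E (v + z) ≤ X.E v := by
  have hvz : f (v + z) = 1 := by rw [map_add, hv, X.N_f hz.1, add_zero]
  have key : ∀ x, C S (v + z) x → f x = 0 → x ∈ X.E v := by
    intro x hx hfx
    by_contra hne
    have e1 : S.q v x = S.q z x := q_eq' hx
    by_cases hM : x ∈ X.M v
    · have hxs : x + s ∈ X.E v := (X.mem_M.1 hM).resolve_left hne
      obtain ⟨a, w, ha, hfa, hw, e⟩ := (X.mem_E hv).1 hxs
      have hZ : Z S f (w + s) := X.Z_add_s.2 hw.1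
      apply X.C2 hz.2 hZ hfx hv
      rw [← e1, S.symm _ v]
      apply q_eq
      refine ha.of_eq rfl ?_
      have : x = a + w + s := by rw [← e]; exact (eo (by abel_nf <;> simp only [ch2, ch3, ch4, ch5, ch6, add_zero, zero_add]))
      rw [this]
      exact (eo (by abel_nf <;> simp only [ch2, ch3, ch4, ch5, ch6, add_zero, zero_add]))
    · obtain ⟨a, ha, hfa, h0⟩ := X.inter hv hfx hM
      apply X.C2 hz.2 h0.2 hfx hv
      rw [← e1, S.symm _ v]
      apply q_eq
      exact ha.of_eq rfl (eo (by abel_nf <;> simp only [ch2, ch3, ch4, ch5, ch6, add_zero, zero_add]))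
  intro x hx
  obtain ⟨a, w, ha, hfa, hw, rfl⟩ := (X.mem_E hvz).1 hx
  refine add_mem (key a ha hfa) ?_
  exact (X.mem_E hv).2 ⟨0, w, C.zero v, map_zero f, hw, by rw [zero_add]⟩

theorem E_N0 {v z : V} (hv : f v = 1) (hz : X.N0 z) : X.E (v + z) = X.E v := by
  apply le_antisymm (X.E_N0_le hv hz)
  have hvz : f (v + z) = 1 := by rw [map_add, hv, X.N_f hz.1, add_zero]
  have := X.E_N0_le hvz hz
  rwa [show v + z + z = v from (eo (by abel_nf <;> simp only [ch2, ch3, ch4, ch5, ch6, add_zero, zero_add]))] at this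

/-- `E_v` is constant modulo the span of `N` -/
theorem E_SN {n : V} (hn : n ∈ SN S c) : ∀ v, f v = 1 → X.E (v + n) = X.E v := by
  unfold SN at hn
  induction hn using Submodule.span_induction with
  | mem x h =>
    intro v hv
    rcases X.N_cases h with h | h
    · exact X.E_W0 hv h
    · exact X.E_N0 hv h
  | zero => intro v _; rw [add_zero]
  | add a b ha' hb' ha hb =>
    intro v hv
    rw [← add_assoc, hb (v + a) (by rw [map_add, hv, X.SN_f ha', add_zero]), ha v hv]
  | smul r a _ ha =>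
    intro v hv
    rcases ETC.zm r with rfl | rfl
    · rw [zero_smul, add_zero]
    · rw [one_smul]; exact ha v hv

/-- `ker f = K_v + span N` if `s ∈ span N` -/
theorem ker_cover (hs : s ∈ SN S c) {v y : V} (hv : f v = 1) (hy : f y = 0) :
    ∃ k, C S v k ∧ f k = 0 ∧ y + k ∈ SN S c := by
  by_cases hM : y ∈ X.M v
  · rcases X.mem_M.1 hM with h | h
    · obtain ⟨a, w, ha, hfa, hw, rfl⟩ := (X.mem_E hv).1 h
      refine ⟨a, ha, hfa, ?_⟩
      rw [show a + w + a = w from (eo (by abel_nf <;> simp only [ch2, ch3, ch4, ch5, ch6, add_zero, zero_add]))]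
      exact X.W0_SN hw
    · obtain ⟨a, w, ha, hfa, hw, e⟩ := (X.mem_E hv).1 h
      refine ⟨a, ha, hfa, ?_⟩
      have : y + a = w + s := by
        have : y = a + w + s := by rw [← e]; exact (eo (by abel_nf <;> simp only [ch2, ch3, ch4, ch5, ch6, add_zero, zero_add]))
        rw [this]; exact (eo (by abel_nf <;> simp only [ch2, ch3, ch4, ch5, ch6, add_zero, zero_add]))
      rw [this]
      exact add_mem (X.W0_SN hw) hs
  · obtain ⟨a, ha, hfa, h0⟩ := X.inter hv hy hM
    exact ⟨a, ha, hfa, Submodule.subset_span (show N S c (y + a) from h0.1)⟩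

variable (hcomm : ∀ t t', XC S c t → XC S c t' → C S t t')
include hcomm

theorem s_SN : s ∈ SN S c := by
  rw [mem_SN X.hc]
  intro t ht
  exact hcomm s t X.XCs_s ht

/-- in the commutative case `span N = ker f` -/
theorem SN_eq {y : V} : y ∈ SN S c ↔ f y = 0 := by
  refine ⟨X.SN_f, fun hy => ?_⟩
  by_contra hne
  obtain ⟨v, hv⟩ := X.hf
  obtain ⟨k, hk, hfk, hyk⟩ := X.ker_cover (X.s_SN hcomm) hv hy
  have hkne : k ∉ SN S c := fun h => hne (by
    have := add_mem hyk h
    rwa [show y + k + k = y from (eo (by abel_nf <;> simp only [ch2, ch3, ch4, ch5, ch6, add_zero, zero_add]))] at this)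
  rw [mem_SN X.hc] at hkne
  push Not at hkne
  obtain ⟨t, ht, hkt⟩ := hkne
  have hqt : S.q k t = c := by
    rcases ht k with h | h
    · exact absurd (show C S k t from by
        show S.q k t = S.z
        rw [S.symm]; exact h) hkt
    · rw [S.symm]; exact h
  have htN : t ∈ SN S c := by
    rw [mem_SN X.hc]
    exact fun t' ht' => hcomm t t' ht ht'
  have hvt : f (v + t) = 1 := by rw [map_add, hv, X.SN_f htN, add_zero]
  have hkE : k ∈ X.E (v + t) := by
    rw [X.E_SN htN v hv]
    exact (X.mem_E hv).2 ⟨k, 0, hk, hfk, zero_mem _, by rw [add_zero]⟩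
  obtain ⟨a, w, ha, hfa, hw, e⟩ := (X.mem_E hvt).1 hkE
  apply hw.1 (v + t)
  rw [S.symm, ← hqt, S.symm k]
  have e1 : S.q (v + t) w = S.q (v + t) k := by
    apply q_eq
    exact ha.of_eq rfl (by rw [e]; exact (eo (by abel_nf <;> simp only [ch2, ch3, ch4, ch5, ch6, add_zero, zero_add])))
  rw [e1]
  apply q_eq'
  exact hk.of_eq (eo (by abel_nf <;> simp only [ch2, ch3, ch4, ch5, ch6, add_zero, zero_add])) rfl

theorem E_const {v v' : V} (hv : f v = 1) (hv' : f v' = 1) : X.E v = X.E v' := by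
  have h : v + v' ∈ SN S c := by
    rw [X.SN_eq hcomm, map_add, hv, hv']
    decide
  have := X.E_SN h v' hv'
  rw [← this, show v' + (v + v') = v from (eo (by abel_nf <;> simp only [ch2, ch3, ch4, ch5, ch6, add_zero, zero_add]))]

/-- `T` is empty -/
theorem N_of_Wp {u : V} (hu : f u = 0) (hW : Wp S f u) : N S c u := by
  by_contra hN
  obtain ⟨v', hv', hc'⟩ := hW
  have hW' : Wp S f (u + s) := by
    rw [← not_Z_iff, X.Z_add_s]
    exact hN
  obtain ⟨v'', hv'', hc''⟩ := hW'
  have h1 : u ∈ X.E v' := (X.mem_E hv').2 ⟨u, 0, hc'.symm, hu, zero_mem _, by rw [add_zero]⟩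
  have h2 : u + s ∈ X.E v'' := (X.mem_E hv'').2
    ⟨u + s, 0, hc''.symm, by rw [map_add, hu, X.fs, add_zero], zero_mem _, by rw [add_zero]⟩
  rw [X.E_const hcomm hv'' hv'] at h2
  have h3 := add_mem h1 h2
  rw [show u + (u + s) = s from (eo (by abel_nf <;> simp only [ch2, ch3, ch4, ch5, ch6, add_zero, zero_add]))] at h3
  exact X.s_notMem_E hv' h3

theorem mem_W0' {u : V} : u ∈ X.W0 ↔ f u = 0 ∧ Wp S f u :=
  ⟨fun h => ⟨X.W0_f h, h.2⟩, fun h => ⟨X.N_of_Wp hcomm h.1 h.2, h.2⟩⟩

theorem cases {h : V} (hh : f h = 0) : h ∈ X.W0 ∨ h + s ∈ X.W0 ∨ X.N0 h := by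
  by_cases hW : Wp S f h
  · exact Or.inl ((X.mem_W0' hcomm).2 ⟨hh, hW⟩)
  · by_cases hN : N S c h
    · right; right
      refine ⟨hN, ?_⟩
      by_contra hz
      exact hW (not_Z_iff.1 hz)
    · right; left
      rw [X.mem_W0' hcomm]
      refine ⟨by rw [map_add, hh, X.fs, add_zero], ?_⟩
      rw [← not_Z_iff, X.Z_add_s]
      exact hN

theorem exists_N0 : ∃ x, X.N0 x := by
  by_contra hno
  push Not at hno
  have h : SN S c ≤ X.W0 := by
    unfold SN
    rw [Submodule.span_le]
    intro x hx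
    exact (X.N_cases hx).resolve_right (hno x)
  exact X.s_notMem_W0 (h (X.s_SN hcomm))

end

/-- the noncommutative case: `V = X_c + W0`, a product -/
theorem noncomm [Finite V] (hnd : ∀ x, (∀ y, C S x y) → x = 0) {t : V} (ht : XC S c t)
    (hft : f t = 1) : IsCompl (XCs S c) X.W0 ∧ (∀ a ∈ XCs S c, ∀ b ∈ X.W0, C S a b) ∧
      (∀ a ∈ XCs S c, ∀ b ∈ X.W0, ∀ a' ∈ XCs S c, ∀ b' ∈ X.W0, C S (a + b) (a' + b') →
        C S a a' ∧ C S b b') := by
  have hNW : ∀ x, N S c x → x ∈ X.W0 := by
    intro x hx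
    rcases X.N_cases hx with h | h
    · exact h
    · exfalso
      have := h.2 t (ht.N hx)
      rw [hft] at this
      exact one_ne_zero this
  have hcm : ∀ a ∈ XCs S c, ∀ b ∈ X.W0, C S a b := fun a ha b hb =>
    (XC.N (S := S) (show XC S c a from ha) hb.1).symm
  have hdisj : ∀ x, x ∈ XCs S c → x ∈ X.W0 → x = 0 := by
    intro x hx hw
    apply hnd
    intro y
    exact (hx y).resolve_right (hw.1 y)
  have hSN : SN S c = X.W0 := by
    apply le_antisymm
    · unfold SN
      rw [Submodule.span_le]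
      exact fun x hx => hNW x hx
    · exact X.W0_SN
  refine ⟨⟨?_, ?_⟩, hcm, ?_⟩
  · rw [Submodule.disjoint_def]
    exact hdisj
  · rw [codisjoint_iff, eq_top_iff]
    intro x _
    by_contra hne
    obtain ⟨l, h1, h2⟩ := ETC.exists_dual_sep hne
    obtain ⟨t1, ht1⟩ := sat_N (S := S) (c := c) l
      (fun y hy => h2 y (Submodule.mem_sup_right (hNW y hy)))
    have hX : XC S c t1 := by
      intro v
      rcases ETC.zm (l v) with h | h
      · left; rw [S.symm]; exact (ht1 v).2 h
      · right; rw [S.symm]; exact (ht1 v).1 h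
    have h3 : t1 ∈ X.W0 := by
      rw [← hSN, mem_SN X.hc]
      intro u hu
      have hlu : l u = 0 := h2 u (Submodule.mem_sup_left hu)
      show S.q t1 u = S.z
      rw [S.symm]
      exact (ht1 u).2 hlu
    have h4 : t1 = 0 := hdisj t1 hX h3
    have h5 := (ht1 x).1 h1
    rw [h4, S.q_zero] at h5
    exact X.hc h5.symm
  · intro a ha b hb a' ha' b' hb' h
    have e1 : S.q (a + b) a' = S.q (a + b) b' := q_eq h
    have e2 : S.q (a + b) a' = S.q a a' := by
      apply q_eq'
      exact (hcm a' ha' b hb).symm.of_eq (eo (by abel_nf <;> simp only [ch2, ch3, ch4, ch5, ch6, add_zero, zero_add])) rfl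
    have e3 : S.q (a + b) b' = S.q b b' := by
      apply q_eq'
      exact (hcm a ha b' hb').of_eq (eo (by abel_nf <;> simp only [ch2, ch3, ch4, ch5, ch6, add_zero, zero_add])) rfl
    have e4 : S.q a a' = S.q b b' := by rw [← e2, ← e3, e1]
    rcases ha a' with h1 | h1
    · exact ⟨h1, e4.symm.trans h1⟩
    · exact absurd (e4.symm.trans h1) (hb.1 b')

end One

end Pool.Agent.ETCR
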