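import Pool.Agent.ETCR.Part2

/-!
# The commutative case (helper50, note RK1 (3)), in Lean (helper29)
-/

set_option autoImplicit false
set_option linter.unusedSimpArgs false
set_option linter.unnecessarySeqFocus false
set_option linter.unusedSectionVars false
set_option linter.unusedVariables false

namespace Pool.Agent.ETCR

open Pool.Agent.Helper58.PLine (QData)
open Pool.Agent.ETCP
open ETC (D)

variable {V Q : Type} [AddCommGroup V] [Module (ZMod 2) V] {S : QData V Q}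

/-- restriction of quaternionic data to a subspace which is linked -/
def restr (S : QData V Q) (he : S.e = 0) (U : Submodule (ZMod 2) V)
    (h : ∀ a ∈ U, ∀ b ∈ U, ∀ c ∈ U, ∀ d ∈ U, S.q a b = S.q c d →
      ∃ x ∈ U, S.q a b = S.q a x ∧ S.q c d = S.q c x) : QData U Q where
  q := fun x y => S.q x y
  z := S.z
  e := 0
  symm := fun x y => S.symm x y
  add := fun x y w => S.add x y w
  diag := fun x => by
    have := S.diag (x : V)
    rw [he, add_zero] at this
    rw [add_zero]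
    exact this
  link := by
    intro a b c d h'
    obtain ⟨x, hx, h1, h2⟩ := h a a.2 b b.2 c c.2 d d.2 h'
    exact ⟨⟨x, hx⟩, h1, h2⟩

/-- the situation after (3.2) -/
structure Two (S : QData V Q) (s : V) (c : Q) (f : V →ₗ[ZMod 2] ZMod 2) (t0 : V) : Prop where
  one : One S s c f
  hN : ∀ u, f u = 0 → Wp S f u → N S c u
  h1 : f t0 = 1
  ht0 : ∀ w ∈ one.W0, C S t0 w

namespace Two

variable {s : V} {c : Q} {f : V →ₗ[ZMod 2] ZMod 2} {t0 : V} (X : Two S s c f t0)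
include X

theorem mem_W0 {v k : V} (hv : f v = 1) (hk : C S v k) (hfk : f k = 0) : k ∈ X.one.W0 :=
  ⟨X.hN k hfk ⟨v, hv, hk.symm⟩, ⟨v, hv, hk.symm⟩⟩

/-- `V_(c1 + w)` for `c1` outside `ker f` commuting with `W0`, `w ∈ W0` -/
theorem dich {c1 w x : V} (h1 : f c1 = 1) (hc1 : ∀ w ∈ X.one.W0, C S c1 w) (hw : w ∈ X.one.W0)
    (hx : C S (c1 + w) x) : (x ∈ X.one.W0 ∨ x + c1 ∈ X.one.W0) ∧ C S c1 x ∧ C S w x := by
  have hf : f (c1 + w) = 1 := by rw [map_add, h1, X.one.W0_f hw, add_zero]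
  rcases ETC.zm (f x) with h | h
  · have hxW := X.mem_W0 hf hx h
    refine ⟨Or.inl hxW, hc1 x hxW, ?_⟩
    exact (hx.add' (hc1 x hxW)).of_eq (eo (by abel_nf <;> simp only [ch2, ch3, ch4, ch5, ch6, add_zero, zero_add])) rfl
  · have h2 : C S (c1 + w) (x + (c1 + w)) := hx.add (C.self X.one.he _)
    have h3 : x + (c1 + w) ∈ X.one.W0 :=
      X.mem_W0 hf h2 (by rw [map_add, h, hf]; decide)
    have h4 : C S c1 (x + (c1 + w)) := hc1 _ h3
    have h5 : C S w (x + (c1 + w)) := (h2.add' h4).of_eq (eo (by abel_nf <;> simp only [ch2, ch3, ch4, ch5, ch6, add_zero, zero_add])) rfl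
    have h6 : C S c1 (c1 + w) := (C.self X.one.he c1).add (hc1 w hw)
    have h7 : C S w (c1 + w) := (hc1 w hw).symm.add (C.self X.one.he w)
    refine ⟨Or.inr ?_, (h4.add h6).of_eq rfl (eo (by abel_nf <;> simp only [ch2, ch3, ch4, ch5, ch6, add_zero, zero_add])), (h5.add h7).of_eq rfl (eo (by abel_nf <;> simp only [ch2, ch3, ch4, ch5, ch6, add_zero, zero_add]))⟩
    have := add_mem h3 hw
    rwa [show x + (c1 + w) + w = x + c1 from (eo (by abel_nf <;> simp only [ch2, ch3, ch4, ch5, ch6, add_zero, zero_add]))] at this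

/-- `V = V_w + W0` -/
theorem cover1 {w u : V} (hw : w ∈ X.one.W0) : ∃ w1 ∈ X.one.W0, C S w (u + w1) := by
  have key : ∀ h, f h = 0 → ∃ w1 ∈ X.one.W0, C S w (h + w1) := by
    intro h hh
    have hf : f (t0 + h) = 1 := by rw [map_add, X.h1, hh, add_zero]
    obtain ⟨v, hv, h1, h2⟩ := X.one.linkN hw.1 hw.2 (X.one.ne_s hf)
    have h3 : C S (t0 + h) (v + s) := q_eq_iff.1 (h2.trans (X.one.ne_s hf).symm)
    have h4 : C S (t0 + h) (v + s + (t0 + h)) := h3.add (C.self X.one.he _)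
    have h5 : v + s + (t0 + h) ∈ X.one.W0 := X.mem_W0 hf h4 (by
      rw [map_add, map_add, hv, X.one.fs, hf]; decide)
    refine ⟨_, h5, ?_⟩
    have h6 : C S w s := (X.one.f_iff.2 (X.one.W0_f hw)).symm
    exact ((h1.add h6).add (X.ht0 w hw).symm).of_eq rfl (eo (by abel_nf <;> simp only [ch2, ch3, ch4, ch5, ch6, add_zero, zero_add]))
  rcases ETC.zm (f u) with h | h
  · exact key u h
  · obtain ⟨w1, hw1, h1⟩ := key (u + t0) (by rw [map_add, h, X.h1]; decide)
    exact ⟨w1, hw1, (h1.add (X.ht0 w hw).symm).of_eq rfl (eo (by abel_nf <;> simp only [ch2, ch3, ch4, ch5, ch6, add_zero, zero_add]))⟩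

/-- the pairwise version -/
theorem cover2 {w1 w2 u : V} (hw1 : w1 ∈ X.one.W0) (hw2 : w2 ∈ X.one.W0) :
    ∃ w ∈ X.one.W0, C S w1 (u + w) ∧ C S w2 (u + w) := by
  obtain ⟨a, ha, ca⟩ := X.cover1 (u := u) hw1
  obtain ⟨b, hb, cb⟩ := X.cover1 (u := u) hw2
  have e1 : S.q (t0 + w1) (u + a) = S.q t0 u := by
    have : S.q (t0 + w1) (u + a) = S.q t0 (u + a) := q_eq' (ca.of_eq (eo (by abel_nf <;> simp only [ch2, ch3, ch4, ch5, ch6, add_zero, zero_add])) rfl)
    rw [this]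
    apply q_eq
    exact (X.ht0 a ha).of_eq rfl (eo (by abel_nf <;> simp only [ch2, ch3, ch4, ch5, ch6, add_zero, zero_add]))
  have e2 : S.q (t0 + w2) (u + b) = S.q t0 u := by
    have : S.q (t0 + w2) (u + b) = S.q t0 (u + b) := q_eq' (cb.of_eq (eo (by abel_nf <;> simp only [ch2, ch3, ch4, ch5, ch6, add_zero, zero_add])) rfl)
    rw [this]
    apply q_eq
    exact (X.ht0 b hb).of_eq rfl (eo (by abel_nf <;> simp only [ch2, ch3, ch4, ch5, ch6, add_zero, zero_add]))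
  obtain ⟨t, h1, h2, h3⟩ := link (e1.trans e2.symm)
  obtain ⟨-, k1, k2⟩ := X.dich X.h1 X.ht0 hw1 h1
  obtain ⟨-, k3, k4⟩ := X.dich X.h1 X.ht0 hw2 h2
  have m1 : C S w1 t := (k2.add ca).of_eq rfl (eo (by abel_nf <;> simp only [ch2, ch3, ch4, ch5, ch6, add_zero, zero_add]))
  have m2 : C S w2 t := (k4.add cb).of_eq rfl (eo (by abel_nf <;> simp only [ch2, ch3, ch4, ch5, ch6, add_zero, zero_add]))
  have m3 : C S (t0 + 0) (u + t) := by
    rw [add_zero]
    exact (k1.add (X.ht0 a ha)).of_eq rfl (eo (by abel_nf <;> simp only [ch2, ch3, ch4, ch5, ch6, add_zero, zero_add]))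
  obtain ⟨h5 | h5, -, -⟩ := X.dich X.h1 X.ht0 (zero_mem _) m3
  · exact ⟨_, h5, m1.of_eq rfl (eo (by abel_nf <;> simp only [ch2, ch3, ch4, ch5, ch6, add_zero, zero_add])), m2.of_eq rfl (eo (by abel_nf <;> simp only [ch2, ch3, ch4, ch5, ch6, add_zero, zero_add]))⟩
  · refine ⟨_, h5, ?_, ?_⟩
    · exact (m1.add (X.ht0 w1 hw1).symm).of_eq rfl (eo (by abel_nf <;> simp only [ch2, ch3, ch4, ch5, ch6, add_zero, zero_add]))
    · exact (m2.add (X.ht0 w2 hw2).symm).of_eq rfl (eo (by abel_nf <;> simp only [ch2, ch3, ch4, ch5, ch6, add_zero, zero_add]))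

theorem linkW : ∀ a ∈ X.one.W0, ∀ b ∈ X.one.W0, ∀ c' ∈ X.one.W0, ∀ d ∈ X.one.W0,
    S.q a b = S.q c' d → ∃ x ∈ X.one.W0, S.q a b = S.q a x ∧ S.q c' d = S.q c' x := by
  intro a ha b hb c' hc' d hd h
  obtain ⟨t, h1, h2, h3⟩ := link h
  obtain ⟨w, hw, k1, k2⟩ := X.cover2 (u := t) ha hc'
  refine ⟨w, hw, ?_, ?_⟩
  · apply q_eq
    exact (h1.add k1).of_eq rfl (eo (by abel_nf <;> simp only [ch2, ch3, ch4, ch5, ch6, add_zero, zero_add]))
  · apply q_eq
    exact (h2.add k2).of_eq rfl (eo (by abel_nf <;> simp only [ch2, ch3, ch4, ch5, ch6, add_zero, zero_add]))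

/-- `V = C(W0) + W0` -/
theorem cover3 [Finite V] (u : V) : ∃ w ∈ X.one.W0, ∀ w' ∈ X.one.W0, C S w' (u + w) := by
  obtain ⟨p, hp⟩ := ETC.saturation (S := restr S X.one.he X.one.W0 X.linkW)
    (α := fun w' => S.q (w' : V) u) (by
      intro x x'
      obtain ⟨w, hw, k1, k2⟩ := X.cover2 (u := u) x.2 x'.2
      refine ⟨⟨w, hw⟩, q_eq k1, q_eq k2, ?_⟩
      exact q_eq (k1.add' k2))
  refine ⟨p, p.2, fun w' hw' => ?_⟩
  exact q_eq_iff.1 (hp ⟨w', hw'⟩)

/-- the centraliser of `W0` -/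
def CW : Submodule (ZMod 2) V where
  carrier := {x | ∀ w ∈ X.one.W0, C S x w}
  add_mem' := fun h h' w hw => (h w hw).add' (h' w hw)
  zero_mem' := fun w _ => C.zero' w
  smul_mem' := by
    intro a x hx
    rcases ETC.zm a with rfl | rfl
    · rw [zero_smul]; exact fun w _ => C.zero' w
    · rw [one_smul]; exact hx

theorem t0_mem : t0 ∈ X.CW := X.ht0

theorem s_mem : s ∈ X.CW := fun w hw => X.one.f_iff.2 (X.one.W0_f hw)

/-- `Q_c1` and `Q_w` meet in `0` -/
theorem meet1 {c1 y w z : V} (h1 : f c1 = 1) (hc1 : c1 ∈ X.CW) (hw : w ∈ X.one.W0)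
    (e : S.q c1 y = S.q w z) : C S w z := by
  obtain ⟨t, k1, k2, k3⟩ := link e
  obtain ⟨-, -, k4⟩ := X.dich h1 hc1 hw k3
  exact (k2.add k4).of_eq rfl (eo (by abel_nf <;> simp only [ch2, ch3, ch4, ch5, ch6, add_zero, zero_add]))

theorem meet2 {a a' b b' : V} (ha : a ∈ X.CW) (ha' : a' ∈ X.CW) (hb : b ∈ X.one.W0)
    (hb' : b' ∈ X.one.W0) (e : S.q a a' = S.q b b') : C S b b' := by
  rcases ETC.zm (f a) with h | h
  · rcases ETC.zm (f a') with h' | h'
    · have e1 : S.q (b + t0) b' = S.q b b' := q_eq' ((X.ht0 b' hb').of_eq (eo (by abel_nf <;> simp only [ch2, ch3, ch4, ch5, ch6, add_zero, zero_add])) rfl)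
      obtain ⟨t, k1, k2, k3⟩ := link (e1.trans e.symm)
      have k1' : C S (t0 + b) (b' + t) := k1.of_eq (add_comm _ _) rfl
      obtain ⟨h5 | h5, -, -⟩ := X.dich X.h1 X.ht0 hb k1'
      · have h6 : t ∈ X.one.W0 := by
          have := add_mem hb' h5
          rwa [show b' + (b' + t) = t from (eo (by abel_nf <;> simp only [ch2, ch3, ch4, ch5, ch6, add_zero, zero_add]))] at this
        have h7 : C S a a' := (k2.add (ha t h6)).of_eq rfl (eo (by abel_nf <;> simp only [ch2, ch3, ch4, ch5, ch6, add_zero, zero_add]))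
        show S.q b b' = S.z
        rw [← e]; exact h7
      · have h6 : t + t0 ∈ X.one.W0 := by
          have := add_mem hb' h5
          rwa [show b' + (b' + t + t0) = t + t0 from (eo (by abel_nf <;> simp only [ch2, ch3, ch4, ch5, ch6, add_zero, zero_add]))] at this
        have h7 : S.q a a' = S.q a t0 := by
          apply q_eq
          exact (k2.add (ha _ h6)).of_eq rfl (eo (by abel_nf <;> simp only [ch2, ch3, ch4, ch5, ch6, add_zero, zero_add]))
        exact X.meet1 X.h1 X.t0_mem hb (y := a) (by rw [S.symm t0, ← h7, e])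
    · exact X.meet1 h' ha' hb (y := a) (by rw [S.symm a', e])
  · exact X.meet1 h ha hb e

/-- the decomposition -/
theorem decomp [Finite V] (hnd : ∀ x, (∀ y, C S x y) → x = 0) :
    IsCompl X.CW X.one.W0 ∧ (∀ a ∈ X.CW, ∀ b ∈ X.one.W0, C S a b) ∧
      (∀ a ∈ X.CW, ∀ b ∈ X.one.W0, ∀ a' ∈ X.CW, ∀ b' ∈ X.one.W0, C S (a + b) (a' + b') →
        C S a a' ∧ C S b b') := by
  have hcov : ∀ u, ∃ w ∈ X.one.W0, u + w ∈ X.CW := by
    intro u
    obtain ⟨w, hw, h⟩ := X.cover3 u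
    exact ⟨w, hw, fun w' hw' => (h w' hw').symm⟩
  refine ⟨⟨?_, ?_⟩, fun a ha b hb => ha b hb, ?_⟩
  · rw [Submodule.disjoint_def]
    intro x hx hw
    apply hnd
    intro y
    obtain ⟨w, hw', h⟩ := hcov y
    exact ((h x hw).symm.add (hx w hw')).of_eq rfl (eo (by abel_nf <;> simp only [ch2, ch3, ch4, ch5, ch6, add_zero, zero_add]))
  · rw [codisjoint_iff, eq_top_iff]
    intro x _
    obtain ⟨w, hw, h⟩ := hcov x
    rw [Submodule.mem_sup]
    exact ⟨x + w, h, w, hw, (eo (by abel_nf <;> simp only [ch2, ch3, ch4, ch5, ch6, add_zero, zero_add]))⟩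
  · intro a ha b hb a' ha' b' hb' h
    have e1 : S.q (a + b) a' = S.q (a + b) b' := q_eq h
    have e2 : S.q (a + b) a' = S.q a a' := by
      apply q_eq'
      exact (ha' b hb).symm.of_eq (eo (by abel_nf <;> simp only [ch2, ch3, ch4, ch5, ch6, add_zero, zero_add])) rfl
    have e3 : S.q (a + b) b' = S.q b b' := by
      apply q_eq'
      exact (ha b' hb').of_eq (eo (by abel_nf <;> simp only [ch2, ch3, ch4, ch5, ch6, add_zero, zero_add])) rfl
    have e4 : S.q a a' = S.q b b' := by rw [← e2, ← e3, e1]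
    have h5 := X.meet2 ha ha' hb hb' e4
    exact ⟨e4.trans h5, h5⟩

/-- if `W0 = 0`, every element outside `ker f` is rigid -/
theorem rigid (h0 : ∀ w ∈ X.one.W0, w = 0) : ∀ x, C S t0 x → x = 0 ∨ x = t0 := by
  intro x hx
  have : C S (t0 + 0) x := by rwa [add_zero]
  obtain ⟨h5 | h5, -, -⟩ := X.dich X.h1 X.ht0 (zero_mem _) this
  · exact Or.inl (h0 x h5)
  · exact Or.inr (eo (h0 _ h5))

end Two

end Pool.Agent.ETCR
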