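import Pool.Agent.ETCR.Part3

/-!
# A linked hyperplane in the commutative case (helper50, note RK1 (3.1)), in Lean (helper29)
-/

set_option autoImplicit false
set_option linter.unusedSimpArgs false
set_option linter.unnecessarySeqFocus false
set_option linter.unusedSectionVars false
set_option linter.unusedVariables false

namespace Pool.Agent.ETCR

open Pool.Agent.Helper58.PLine (QData)
open Pool.Agent.ETCP
open ETC (D)

variable {V Q : Type} [AddCommGroup V] [Module (ZMod 2) V] {S : QData V Q}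

namespace One

variable {s : V} {c : Q} {f : V →ₗ[ZMod 2] ZMod 2} (X : One S s c f)
include X

/-- the form `f ∧ g` vanishes on commuting pairs -/
theorem wedge (hW : ∀ u, f u = 0 → Wp S f u → u ∈ X.W0) {g : D V} (hg : ∀ w ∈ X.W0, g w = 0)
    {x y : V} (h : C S x y) : f x * g y = f y * g x := by
  rcases ETC.zm (f x) with hx | hx <;> rcases ETC.zm (f y) with hy | hy
  · rw [hx, hy, zero_mul, zero_mul]
  · have : x ∈ X.W0 := hW x hx ⟨y, hy, h⟩
    rw [hx, hy, hg x this, zero_mul, mul_zero]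
  · have : y ∈ X.W0 := hW y hy ⟨x, hx, h.symm⟩
    rw [hx, hy, hg y this, zero_mul, mul_zero]
  · have h1 : C S x (x + y) := (C.self X.he x).add h
    have h2 : x + y ∈ X.W0 := hW _ (by rw [map_add, hx, hy]; decide) ⟨x, hx, h1.symm⟩
    have h3 := hg _ h2
    rw [map_add] at h3
    rw [hx, hy, one_mul, one_mul]
    rcases ETC.zm (g x) with a | a <;> rcases ETC.zm (g y) with b | b <;> rw [a, b] at h3 ⊢
    · rw [zero_add] at h3; exact h3
    · rw [add_zero] at h3; exact h3.symm

/-- if `x, y` are in `ker g`, `C x (y + t)` and `g t = 1` then `f x = 0` -/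
theorem f_zero (hW : ∀ u, f u = 0 → Wp S f u → u ∈ X.W0) {g : D V} (hg : ∀ w ∈ X.W0, g w = 0)
    {x y t : V} (hx : g x = 0) (hy : g y = 0) (ht : g t = 1) (h : C S x (y + t)) : f x = 0 := by
  have := X.wedge hW hg h
  rw [hx, mul_zero, map_add, hy, zero_add, ht, mul_one] at this
  exact this

/-- `ker g` is linked -/
theorem linkU (hW : ∀ u, f u = 0 → Wp S f u → u ∈ X.W0) {g : D V} (hg : ∀ w ∈ X.W0, g w = 0)
    (hgs : g s = 1) : ∀ a, g a = 0 → ∀ b, g b = 0 → ∀ c', g c' = 0 → ∀ d, g d = 0 →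
      S.q a b = S.q c' d → ∃ x, g x = 0 ∧ S.q a b = S.q a x ∧ S.q c' d = S.q c' x := by
  intro a ha b hb c' hc' d hd h
  obtain ⟨t, h1, h2, h3⟩ := link h
  rcases ETC.zm (g t) with ht | ht
  · exact ⟨t, ht, q_eq h1, q_eq h2⟩
  · have fa := X.f_zero hW hg ha hb ht h1
    have fc := X.f_zero hW hg hc' hd ht h2
    have sa : C S a s := (X.f_iff.2 fa).symm
    have sc : C S c' s := (X.f_iff.2 fc).symm
    refine ⟨t + s, ?_, ?_, ?_⟩
    · rw [map_add, ht, hgs]; decide
    · apply q_eq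
      exact (h1.add sa).of_eq rfl (eo (by abel_nf <;> simp only [ch2, ch3, ch4, ch5, ch6, add_zero, zero_add]))
    · apply q_eq
      exact (h2.add sc).of_eq rfl (eo (by abel_nf <;> simp only [ch2, ch3, ch4, ch5, ch6, add_zero, zero_add]))

/-- the property (b') on `ker g` -/
theorem partner (hW : ∀ u, f u = 0 → Wp S f u → u ∈ X.W0) {g : D V} (hg : ∀ w ∈ X.W0, g w = 0)
    {t w : V} (ht : f t = 1) (hgt : g t = 0) (hw : w ∈ X.W0) :
    ∃ v, g v = 0 ∧ f v = 1 ∧ C S t v ∧ C S w v := by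
  obtain ⟨v, hv, h1, h2⟩ := X.linkN hw.1 hw.2 (X.ne_s ht)
  have h3 : C S t (v + s) := by
    apply q_eq_iff.1
    rw [h2, X.ne_s ht]
  have h4 : f (v + s) = 1 := by rw [map_add, hv, X.fs, add_zero]
  refine ⟨v + s, ?_, h4, h3, h1.add (X.f_iff.2 (X.W0_f hw)).symm⟩
  have := X.wedge hW hg h3
  rw [ht, hgt, mul_zero, one_mul] at this
  exact this

end One

end Pool.Agent.ETCR
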