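import Pool.Agent.ETCR.Equal
import Pool.Agent.ETC.QSat2

/-!
# Use of the saturation theorem (helper50), in Lean (helper29)
-/

set_option autoImplicit false
set_option linter.unusedSimpArgs false
set_option linter.unnecessarySeqFocus false
set_option linter.unusedSectionVars false
set_option linter.unusedVariables false

namespace Pool.Agent.ETCR

open Pool.Agent.Helper58.PLine (QData)
open Pool.Agent.ETCP
open ETC (D)

variable {V Q : Type} [AddCommGroup V] [Module (ZMod 2) V] {S : QData V Q}

/-- a functional vanishing on `N` is given by an element -/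
theorem sat_N [Finite V] {c : Q} (l : D V) (hl : ∀ x, N S c x → l x = 0) :
    ∃ t, ∀ v, (l v = 1 → S.q v t = c) ∧ (l v = 0 → S.q v t = S.z) := by
  classical
  have hex : ∀ x, l x = 1 → ∃ y, S.q x y = c := by
    intro x hx
    by_contra hno
    push Not at hno
    rw [hl x hno] at hx
    exact zero_ne_one hx
  obtain ⟨α, hα1, hα0⟩ : ∃ α : V → Q, (∀ x, l x = 1 → α x = c) ∧ (∀ x, l x = 0 → α x = S.z) :=
    ⟨fun v => if l v = 1 then c else S.z, fun x h => if_pos h,
      fun x h => if_neg (by rw [h]; exact zero_ne_one)⟩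
  obtain ⟨t, ht⟩ := ETC.saturation (S := S) (α := α) (by
    intro x x'
    rcases ETC.zm (l x) with h | h <;> rcases ETC.zm (l x') with h' | h'
    · refine ⟨0, ?_, ?_, ?_⟩
      · rw [hα0 _ h, S.q_zero]
      · rw [hα0 _ h', S.q_zero]
      · rw [hα0 _ (by rw [map_add, h, h', add_zero]), S.q_zero]
    · obtain ⟨y, hy⟩ := hex x' h'
      have h2 : l (x + x') = 1 := by rw [map_add, h, h', zero_add]
      obtain ⟨y', hy'⟩ := hex (x + x') h2
      obtain ⟨t, a1, a2, a3⟩ := link (hy.trans hy'.symm)
      refine ⟨t, ?_, ?_, ?_⟩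
      · rw [hα0 _ h]
        exact Eq.symm (C.of_eq (S := S) a3 (eo (by abel_nf <;> simp only [ch2, ch3, ch4, ch5, ch6, add_zero, zero_add])) rfl)
      · rw [hα1 _ h', ← hy]; exact q_eq a1
      · rw [hα1 _ h2, ← hy']; exact q_eq a2
    · obtain ⟨y, hy⟩ := hex x h
      have h2 : l (x + x') = 1 := by rw [map_add, h, h', add_zero]
      obtain ⟨y', hy'⟩ := hex (x + x') h2
      obtain ⟨t, a1, a2, a3⟩ := link (hy.trans hy'.symm)
      refine ⟨t, ?_, ?_, ?_⟩
      · rw [hα1 _ h, ← hy]; exact q_eq a1
      · rw [hα0 _ h']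
        exact Eq.symm (C.of_eq (S := S) a3 (eo (by abel_nf <;> simp only [ch2, ch3, ch4, ch5, ch6, add_zero, zero_add])) rfl)
      · rw [hα1 _ h2, ← hy']; exact q_eq a2
    · obtain ⟨y, hy⟩ := hex x h
      obtain ⟨y', hy'⟩ := hex x' h'
      obtain ⟨t, a1, a2, a3⟩ := link (hy.trans hy'.symm)
      refine ⟨t, ?_, ?_, ?_⟩
      · rw [hα1 _ h, ← hy]; exact q_eq a1
      · rw [hα1 _ h', ← hy']; exact q_eq a2
      · rw [hα0 _ (by rw [map_add, h, h']; decide)]
        exact Eq.symm a3)
  refine ⟨t, fun v => ⟨fun h => ?_, fun h => ?_⟩⟩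
  · rw [← ht v]; exact hα1 _ h
  · rw [← ht v]; exact hα0 _ h

variable (S) in
/-- `Q_t ⊆ {0, c}` -/
def XC (c : Q) (t : V) : Prop := ∀ v, S.q t v = S.z ∨ S.q t v = c

theorem XC.N {c : Q} {t x : V} (h : XC S c t) (hx : N S c x) : C S x t :=
  C.symm ((h x).resolve_right (fun e => hx t (by rw [S.symm, e])))

theorem XC.add {c : Q} {t t' : V} (h : XC S c t) (h' : XC S c t') : XC S c (t + t') := by
  intro v
  rcases h v with a | a <;> rcases h' v with b | b
  · exact Or.inl (C.add' (S := S) a b)
  · right
    rw [← b]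
    apply q_eq'
    exact C.of_eq (S := S) (x := t) (y := v) a (eo (by abel_nf <;> simp only [ch2, ch3, ch4, ch5, ch6, add_zero, zero_add])) rfl
  · right
    rw [← a]
    apply q_eq'
    exact C.of_eq (S := S) (x := t') (y := v) b (eo (by abel_nf <;> simp only [ch2, ch3, ch4, ch5, ch6, add_zero, zero_add])) rfl
  · left
    have : S.q t v = S.q t' v := a.trans b.symm
    exact q_eq'_iff.1 this

theorem XC.zero (c : Q) : XC S c 0 := fun v => Or.inl (C.zero' v)

/-- the subspace of the elements with `Q_t ⊆ {0, c}` -/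
def XCs (S : QData V Q) (c : Q) : Submodule (ZMod 2) V where
  carrier := {t | XC S c t}
  add_mem' := fun h h' => h.add h'
  zero_mem' := XC.zero c
  smul_mem' := by
    intro a x hx
    rcases ETC.zm a with rfl | rfl
    · rw [zero_smul]; exact XC.zero c
    · rw [one_smul]; exact hx

/-- the span of `N` -/
def SN (S : QData V Q) (c : Q) : Submodule (ZMod 2) V := Submodule.span (ZMod 2) {x | N S c x}

/-- `span N = C(X_c)` -/
theorem mem_SN [Finite V] {c : Q} (hc : c ≠ S.z) {x : V} :
    x ∈ SN S c ↔ ∀ t, XC S c t → C S x t := by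
  constructor
  · intro hx t ht
    unfold SN at hx
    induction hx using Submodule.span_induction with
    | mem x h => exact ht.N h
    | zero => exact C.zero' t
    | add a b _ _ ha hb => exact ha.add' hb
    | smul r a _ ha =>
      rcases ETC.zm r with rfl | rfl
      · rw [zero_smul]; exact C.zero' t
      · rw [one_smul]; exact ha
  · intro h
    by_contra hx
    obtain ⟨l, h1, h2⟩ := ETC.exists_dual_sep hx
    obtain ⟨t, ht⟩ := sat_N (S := S) (c := c) l (fun y hy => h2 y (Submodule.subset_span hy))
    have hX : XC S c t := by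
      intro v
      rcases ETC.zm (l v) with h | h
      · left; rw [S.symm]; exact (ht v).2 h
      · right; rw [S.symm]; exact (ht v).1 h
    exact hc (((ht x).1 h1).symm.trans (h t hX))

/-- an element with `Q_t = {0, c}` -/
theorem XC.one (he : S.e = 0) {c : Q} (hc : c ≠ S.z) {t : V} (h : XC S c t) {v : V}
    (hv : S.q t v = c) : ∃ f, One S t c f := by
  classical
  have hz : ∀ v, ¬ S.q t v = c → S.q t v = S.z := fun v hn => (h v).resolve_right hn
  refine ⟨{ toFun := fun v => if S.q t v = c then 1 else 0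
            map_add' := ?_
            map_smul' := ?_ }, he, hc, ?_, ?_, ?_⟩
  · intro a b
    by_cases ha : S.q t a = c <;> by_cases hb : S.q t b = c
    · have : S.q t (a + b) = S.z := (S.add t a b).1 (ha.trans hb.symm)
      rw [if_pos ha, if_pos hb, if_neg (by rw [this]; exact hc.symm)]
      decide
    · have : S.q t (a + b) = S.q t a := by
        apply q_eq
        exact C.of_eq (S := S) (hz b hb) rfl (eo (by abel_nf <;> simp only [ch2, ch3, ch4, ch5, ch6, add_zero, zero_add]))
      rw [if_pos ha, if_neg hb, if_pos (this.trans ha), add_zero]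
    · have : S.q t (a + b) = S.q t b := by
        apply q_eq
        exact C.of_eq (S := S) (hz a ha) rfl (eo (by abel_nf <;> simp only [ch2, ch3, ch4, ch5, ch6, add_zero, zero_add]))
      rw [if_neg ha, if_pos hb, if_pos (this.trans hb), zero_add]
    · have : S.q t (a + b) = S.z := C.add (S := S) (hz a ha) (hz b hb)
      rw [if_neg ha, if_neg hb, if_neg (by rw [this]; exact hc.symm), add_zero]
  · intro r a
    rcases ETC.zm r with rfl | rfl
    · have : S.q t ((0 : ZMod 2) • a) = S.z := by rw [zero_smul, S.q_zero]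
      rw [if_neg (by rw [this]; exact hc.symm)]
      simp
    · simp
  · intro a ha
    by_contra hne
    have : S.q t a = c := (h a).resolve_left hne
    have h1 : (if S.q t a = c then (1 : ZMod 2) else 0) = 0 := ha
    rw [if_pos this] at h1
    exact one_ne_zero h1
  · intro a ha
    by_contra hne
    have h1 : (if S.q t a = c then (1 : ZMod 2) else 0) = 1 := ha
    rw [if_neg hne] at h1
    exact zero_ne_one h1
  · exact ⟨v, if_pos hv⟩

end Pool.Agent.ETCR
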